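import Pool.Agent.V1143.Holo.Hecke

/-!
# Opposite signs: for every level-one cusp form `f` and every odd quadratic character `χ`, and every
quadratic character `ψ`, one of `L(f ⊗ ψ, 1/2)`, `L(f ⊗ χψ, 1/2)` vanishes.

For a newform `f` of level one and weight `k`, with Fourier coefficients `a(n)`, and a primitive
Dirichlet character `ψ`, the L-function of `π_f ⊗ ψ` is `∑ ψ(n) a(n) n^{-(k-1)/2} n^{-s}`.
-/

namespace Pool.Agent.Results.MP_d17ed7_nt.OppositeSigns

open Filter Topology ModularForm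
open scoped MatrixGroups

/-- the `n`-th Fourier coefficient of `f` -/
noncomputable def coeff {k : ℤ} (f : CuspForm 𝒮ℒ k) (n : ℕ) : ℂ :=
  (UpperHalfPlane.qExpansion 1 f).coeff n

/-- `f` is a newform of level one (a normalised Hecke eigenform for `SL(2, ℤ)`). -/
def IsNewformLevelOne {k : ℤ} (f : CuspForm 𝒮ℒ k) : Prop :=
  coeff f 1 = 1 ∧ ∀ p : ℕ, p.Prime → ∀ n : ℕ,
    coeff f (p * n) + (if p ∣ n then (p : ℂ) ^ (k - 1) * coeff f (n / p) else 0) =
      coeff f p * coeff f n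

/-- the analytically normalised coefficients `a(n) / n^{(k-1)/2}` -/
noncomputable def lam {k : ℤ} (f : CuspForm 𝒮ℒ k) (n : ℕ) : ℂ :=
  coeff f n / (n : ℂ) ^ (((k : ℂ) - 1) / 2)

/-- `v = L(f ⊗ ψ, 1/2)`: the value at `s = 1/2` of the (entire) function which for `Re s > 3/2` is
`∑ ψ(n) lam(n) n^{-s}`. -/
def IsCentralValue {k : ℤ} (f : CuspForm 𝒮ℒ k) {q : ℕ} (ψ : DirichletCharacter ℂ q) (v : ℂ) :
    Prop :=
  ∃ L : ℂ → ℂ, Differentiable ℂ L ∧
    (∀ s : ℂ, 3 / 2 < s.re → LSeriesSummable (fun n : ℕ => ψ (n : ZMod q) * lam f n) s ∧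
      L s = LSeries (fun n : ℕ => ψ (n : ZMod q) * lam f n) s) ∧ L (1 / 2) = v

/-- quadratic characters: primitive of order exactly two -/
def IsQuadraticChar {q : ℕ} (χ : DirichletCharacter ℂ q) : Prop :=
  q ≠ 0 ∧ χ.IsPrimitive ∧ orderOf χ = 2

/-- central values are unique -/
theorem central_unique {k : ℤ} {f : CuspForm 𝒮ℒ k} {q : ℕ} {ψ : DirichletCharacter ℂ q} {v w : ℂ}
    (hv : IsCentralValue f ψ v) (hw : IsCentralValue f ψ w) : v = w := by
  obtain ⟨L, hL1, hL2, rfl⟩ := hv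
  obtain ⟨L', hL1', hL2', rfl⟩ := hw
  have h1 : AnalyticOnNhd ℂ L Set.univ := fun z _ => hL1.analyticAt z
  have h2 : AnalyticOnNhd ℂ L' Set.univ := fun z _ => hL1'.analyticAt z
  have h3 : L =ᶠ[𝓝 (2 : ℂ)] L' := by
    have : {s : ℂ | 3 / 2 < s.re} ∈ 𝓝 (2 : ℂ) :=
      (isOpen_lt continuous_const Complex.continuous_re).mem_nhds (by
        change (3 / 2 : ℝ) < (2 : ℂ).re
        norm_num)
    filter_upwards [this] with s hs
    rw [(hL2 s hs).2, (hL2' s hs).2]
  exact h1.eqOn_of_preconnected_of_eventuallyEq h2 isPreconnected_univ (Set.mem_univ 2) h3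
    (Set.mem_univ _)

open Pool.Agent.V1143.Holo

/-- the central value of the twist by a real primitive character exists; it is zero when the sign
is `-1` -/
theorem central_exists {k : ℤ} (hk : 0 < k) (f : CuspForm 𝒮ℒ k) {q : ℕ} (hq : q ≠ 0)
    (ψ : DirichletCharacter ℂ q) (hp : ψ.IsPrimitive) (h2 : ψ⁻¹ = ψ) :
    ∃ v : ℂ, IsCentralValue f ψ v ∧ (sgn k ψ = -1 → v = 0) := by
  have hqn : NeZero q := ⟨hq⟩
  refine ⟨Ltw f ψ (1 / 2), ⟨Ltw f ψ, Ltw_diff f ψ hk h2, fun s hs => ?_, rfl⟩,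
    fun hs => Ltw_center f ψ h2 hs⟩
  have h := Ltw_series f ψ hk hp h2 hs
  exact ⟨h.LSeriesSummable, h.LSeries_eq.symm⟩

lemma inv_of_order {q : ℕ} {χ : DirichletCharacter ℂ q} (h : orderOf χ = 2) : χ⁻¹ = χ := by
  rw [inv_eq_iff_mul_eq_one, ← sq, ← h]
  exact pow_orderOf_eq_one χ

lemma mul_inv_self {q r : ℕ} {χ : DirichletCharacter ℂ q} {ψ : DirichletCharacter ℂ r}
    (h1 : χ⁻¹ = χ) (h2 : ψ⁻¹ = ψ) :
    (DirichletCharacter.mul χ ψ)⁻¹ = DirichletCharacter.mul χ ψ := by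
  unfold DirichletCharacter.mul
  rw [mul_inv, ← map_inv, ← map_inv, h1, h2]

lemma prim_inv_self {q : ℕ} {χ : DirichletCharacter ℂ q} (h : χ⁻¹ = χ) (hq : q ≠ 0) :
    (χ.primitiveCharacter)⁻¹ = χ.primitiveCharacter := by
  have hqn : NeZero q := ⟨hq⟩
  apply DirichletCharacter.changeLevel_injective χ.conductor_dvd_level
  rw [map_inv, DirichletCharacter.changeLevel_primitiveCharacter, h]

lemma neg_one_prim {q : ℕ} (χ : DirichletCharacter ℂ q) :
    χ.primitiveCharacter (-1) = χ (-1) := by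
  have := χ.primitiveCharacter_apply_of_isCoprime (a := -1) (by
    exact isCoprime_one_left.neg_left)
  simpa using this

lemma neg_one_mul {q r : ℕ} (χ : DirichletCharacter ℂ q) (ψ : DirichletCharacter ℂ r) :
    (χ.primitive_mul ψ) (-1) = χ (-1) * ψ (-1) := by
  unfold DirichletCharacter.primitive_mul
  rw [neg_one_prim]
  unfold DirichletCharacter.mul
  rw [MulChar.mul_apply]
  have e1 := DirichletCharacter.changeLevel_eq_cast_of_dvd' χ (Nat.dvd_lcm_left q r) (a := -1)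
    (isCoprime_one_left.neg_left)
  have e2 := DirichletCharacter.changeLevel_eq_cast_of_dvd' ψ (Nat.dvd_lcm_right q r) (a := -1)
    (isCoprime_one_left.neg_left)
  push_cast at e1 e2
  rw [e1, e2]

lemma sgn_sq {k : ℤ} (hk : Even k) {q : ℕ} [NeZero q] (χ : DirichletCharacter ℂ q) :
    sgn k χ = 1 ∨ sgn k χ = -1 := by
  have h1 : χ (-1) * χ (-1) = 1 := by rw [← map_mul]; simp
  have h2 : ((-Complex.I) ^ k) * ((-Complex.I) ^ k) = 1 := by
    rw [← mul_zpow, neg_mul_neg, Complex.I_mul_I, hk.neg_one_zpow]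
  have h3 : sgn k χ * sgn k χ = 1 := by
    unfold sgn
    rw [mul_mul_mul_comm, h1, h2, one_mul]
  rcases mul_self_eq_one_iff.mp h3 with h | h
  · exact Or.inl h
  · exact Or.inr h

/-- a nonzero cusp form of level one has even positive weight -/
lemma weight_of_ne {k : ℤ} (f : CuspForm 𝒮ℒ k) (hf : f ≠ 0) : 0 < k ∧ Even k := by
  constructor
  · by_contra hk
    have h := CuspForm.rank_eq_zero_of_weight_lt_twelve (k := k) (by omega)
    exact hf (rank_zero_iff_forall_zero.mp h f)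
  · by_contra hk
    rw [Int.not_even_iff_odd] at hk
    have h := ModularForm.eq_zero_of_neg_one_mem (f := f)
      (show (-1 : GL (Fin 2) ℝ) ∈ 𝒮ℒ from ⟨-1, by ext; simp⟩) hk
    apply hf
    ext z
    exact DFunLike.congr_fun h z

lemma coeff_zero_form {k : ℤ} (n : ℕ) : coeff (0 : CuspForm 𝒮ℒ k) n = 0 := by
  unfold coeff
  have : ((0 : CuspForm 𝒮ℒ k) : UpperHalfPlane → ℂ) = 0 := rfl
  rw [this, UpperHalfPlane.qExpansion_zero]
  simp

lemma central_of_zero {k : ℤ} {q : ℕ} (ψ : DirichletCharacter ℂ q) :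
    IsCentralValue (0 : CuspForm 𝒮ℒ k) ψ 0 := by
  refine ⟨fun _ => 0, differentiable_const 0, fun s _ => ?_, rfl⟩
  have h0 : (fun n : ℕ => ψ (n : ZMod q) * lam (0 : CuspForm 𝒮ℒ k) n) = 0 := by
    funext n
    unfold lam
    rw [coeff_zero_form]
    simp
  rw [h0]
  exact ⟨LSeriesSummable_zero, LSeries_zero.symm ▸ rfl⟩

theorem exists_product {k : ℤ} (f : CuspForm 𝒮ℒ k) {q : ℕ} (χ : DirichletCharacter ℂ q)
    (hχ : IsQuadraticChar χ) (hodd : χ (-1) = -1) {r : ℕ} (ψ : DirichletCharacter ℂ r)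
    (hψ : IsQuadraticChar ψ) :
    ∃ v w : ℂ, IsCentralValue f ψ v ∧ IsCentralValue f (χ.primitive_mul ψ) w ∧ v * w = 0 := by
  by_cases hf : f = 0
  · subst hf
    exact ⟨0, 0, central_of_zero ψ, central_of_zero _, by simp⟩
  obtain ⟨hk, hk2⟩ := weight_of_ne f hf
  obtain ⟨hq, hp, ho⟩ := hχ
  obtain ⟨hr, hp', ho'⟩ := hψ
  have hr' : NeZero r := ⟨hr⟩
  have hl : Nat.lcm q r ≠ 0 := Nat.lcm_ne_zero hq hr
  have hl' : NeZero (Nat.lcm q r) := ⟨hl⟩
  have hc : (DirichletCharacter.mul χ ψ).conductor ≠ 0 :=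
    (DirichletCharacter.conductor_ne_zero _)
  have hc' : NeZero (DirichletCharacter.mul χ ψ).conductor := ⟨hc⟩
  obtain ⟨v, hv, hv0⟩ := central_exists hk f hr ψ hp' (inv_of_order ho')
  obtain ⟨w, hw, hw0⟩ := central_exists hk f hc (χ.primitive_mul ψ)
    (DirichletCharacter.primitive_mul_isPrimitive χ ψ)
    (prim_inv_self (mul_inv_self (inv_of_order ho) (inv_of_order ho')) hl)
  refine ⟨v, w, hv, hw, ?_⟩
  have hrel : sgn k (χ.primitive_mul ψ) = - sgn k ψ := by
    unfold sgn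
    rw [neg_one_mul, hodd]
    ring
  rcases sgn_sq hk2 ψ with h | h
  · rw [hw0 (by rw [hrel, h]), mul_zero]
  · rw [hv0 h, zero_mul]

/-- an odd quadratic character exists -/
theorem exists_odd_char (p : ℕ) (hp : p.Prime) (h3 : p % 4 = 3) :
    ∃ χ : DirichletCharacter ℂ p, IsQuadraticChar χ ∧ χ (-1) = -1 := by
  have hF : Fact p.Prime := ⟨hp⟩
  have h2 : p ≠ 2 := by rintro rfl; norm_num at h3
  set χ : DirichletCharacter ℂ p := (quadraticChar (ZMod p)).ringHomComp (Int.castRingHom ℂ) with hχ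
  have hch : ringChar (ZMod p) ≠ 2 := by rwa [ZMod.ringChar_zmod_n]
  have hne : χ ≠ 1 := by
    have := quadraticChar_ne_one hch
    rwa [hχ, MulChar.ringHomComp_ne_one_iff (Int.cast_injective)]
  have hsq : χ ^ 2 = 1 := by
    have := (quadraticChar_isQuadratic (ZMod p)).sq_eq_one
    rw [hχ, MulChar.ringHomComp_pow, this]
    exact MulChar.ringHomComp_one _
  refine ⟨χ, ⟨hp.ne_zero, ?_, orderOf_eq_prime hsq hne⟩, ?_⟩
  · have hd := χ.conductor_dvd_level
    rcases (Nat.dvd_prime hp).mp hd with h | h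
    · exact absurd ((DirichletCharacter.eq_one_iff_conductor_eq_one).mpr h) hne
    · exact h
  · have h := quadraticChar_neg_one hch
    rw [ZMod.card, ZMod.χ₄_nat_three_mod_four h3] at h
    rw [hχ, MulChar.ringHomComp_apply, h]
    simp

/-- `Δ` is a newform of level one -/
theorem delta_newform : IsNewformLevelOne CuspForm.discriminant := by
  refine ⟨ModularForm.discriminant_qExpansion_coeff_one, fun p hp n => ?_⟩
  have h := discriminant_hecke p hp n
  have e : ((12 : ℤ) - 1) = 11 := by norm_num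
  rw [e]
  exact_mod_cast h

/-- **Main result.** -/
theorem result :
    IsNewformLevelOne CuspForm.discriminant ∧
    (∀ p : ℕ, p.Prime → p % 4 = 3 →
      ∃ χ : DirichletCharacter ℂ p, IsQuadraticChar χ ∧ χ (-1) = -1) ∧
    ∀ (k : ℤ) (f : CuspForm 𝒮ℒ k) (q : ℕ) (χ : DirichletCharacter ℂ q),
      IsQuadraticChar χ → χ (-1) = -1 →
      ∀ (r : ℕ) (ψ : DirichletCharacter ℂ r), IsQuadraticChar ψ →
        (∃ v w : ℂ, IsCentralValue f ψ v ∧ IsCentralValue f (χ.primitive_mul ψ) w) ∧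
        ∀ v w : ℂ, IsCentralValue f ψ v → IsCentralValue f (χ.primitive_mul ψ) w → v * w = 0 := by
  refine ⟨delta_newform, exists_odd_char, fun k f q χ hχ ho r ψ hψ => ?_⟩
  obtain ⟨v, w, hv, hw, h0⟩ := exists_product f χ hχ ho ψ hψ
  refine ⟨⟨v, w, hv, hw⟩, fun v' w' hv' hw' => ?_⟩
  rw [central_unique hv' hv, central_unique hw' hw, h0]

end Pool.Agent.Results.MP_d17ed7_nt.OppositeSigns
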